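import Pool.Agent.NH69.SD.Fin

/-!
# Splittability of permutation classes is generically decidable

`Pool.Agent.W6.PS.Defs` contains the definitions of containment (`Contains τ π`: `τ` contains `π`), of
the class `Av π` and of `Unsplittable C`: for all `σ`, `ρ` in `C` there is `τ` in `C` such that for every
red-blue colouring of the entries of `τ` the red entries contain `σ` or the blue entries contain `ρ`.
`HasBlock π k` (`Pool.Agent.TH691.US.Defs`): `π` maps some `k` consecutive positions to `k` consecutive
values. `AvF F` (`Pool.Agent.NH69.SD.Uns`) is the class of the permutations which contain none of the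
`F i`.

Part 1 (Q2): a primitive recursive procedure which decides whether `Av π` is splittable, never gives a
wrong answer and gives no answer for a proportion `O(1 / n)` of the permutations of size `n`.

Part 2 (Q1): for random bases with `k` elements, of sizes between `n` and `A n`, the answer of the
algorithm which tests whether all elements of the basis are simple is right with probability
`1 - O(1 / n)`.

Method: if `π` has an adjacency (two consecutive positions with consecutive values) and the extreme
entries of `π` are in general position (a decidable condition), then there are two explicit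
permutations of size `2 n - 1` in `Av π` for which every `τ` in `Av π` has a bad colouring (this is in the
starting files; the procedure, the size of these permutations, and the case of several basis elements
are new: for random bases the two permutations avoid also the other elements of the basis).
-/

set_option autoImplicit false

open Equiv Pool.Agent.W6.PS Pool.Agent.TH691.US Finset

namespace Pool.Agent.Results.MP_739fc0_co.GenericDecidability

/-- one-line notation of a permutation of `{0, …, n - 1}` -/
def word {n : ℕ} (π : Perm (Fin n)) : List ℕ := List.ofFn fun i => (π i).val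

/-- `π` has no interval of size `k` with `2 ≤ k < n` -/
def IsSimple {n : ℕ} (π : Perm (Fin n)) : Prop := ¬ ∃ k, 2 ≤ k ∧ k < n ∧ HasBlock π k

/-- the permutations (of all sizes) which contain none of the permutations `F i` -/
def AvSet {k : ℕ} {m : Fin k → ℕ} (F : ∀ i, Perm (Fin (m i))) : Set (Σ r : ℕ, Perm (Fin r)) :=
  {τ | ∀ i, ¬ Contains τ.2 (F i)}

open Classical in
/-- (1) There is a primitive recursive function `f` such that for each permutation `π` (given in
one-line notation) `f π` is `some true` only if `Av π` is unsplittable, `some false` only if `Av π` is
splittable, and `f π = none` for at most `465648 / n * n!` of the `n!` permutations of size `n`.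

(2) For all `k` and `A` there is `C` such that for all `n ≥ 1` and all sizes `m i`, `n ≤ m i ≤ A n`, all but
at most `C / n * ∏ (m i)!` of the `k`-tuples `F` of permutations of these sizes have the property: the
class of the permutations which avoid all `F i` is unsplittable if and only if all `F i` are
simple. -/
theorem result :
    (∃ f : List ℕ → Option Bool, Primrec f ∧
      (∀ (n : ℕ) (π : Perm (Fin n)), f (word π) = some true → Unsplittable (Av π)) ∧
      (∀ (n : ℕ) (π : Perm (Fin n)), f (word π) = some false → ¬ Unsplittable (Av π)) ∧
      ∀ n : ℕ, 1 ≤ n → ((univ.filter fun π : Perm (Fin n) => f (word π) = none).card : ℝ) ≤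
        465648 / n * n.factorial) ∧
    ∀ k A : ℕ, ∃ C : ℝ, ∀ n : ℕ, 1 ≤ n → ∀ m : Fin k → ℕ, (∀ i, n ≤ m i ∧ m i ≤ A * n) →
      ((univ.filter fun F : ∀ i, Perm (Fin (m i)) =>
        ¬ (Unsplittable (AvSet F) ↔ ∀ i, IsSimple (F i))).card : ℝ) ≤
        C / n * ∏ i, ((m i).factorial : ℝ) := by
  constructor
  · refine ⟨Pool.Agent.NH69.SD.dec, Pool.Agent.NH69.SD.prim_dec, ?_, ?_, ?_⟩
    · intro n π h
      exact Pool.Agent.NH69.SD.dec_true h
    · intro n π h
      exact Pool.Agent.NH69.SD.dec_false h
    · intro n hn
      have h := Pool.Agent.NH69.SD.frac_none n hn
      unfold frac at h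
      have hf : (0 : ℝ) < (n.factorial : ℝ) := by exact_mod_cast Nat.factorial_pos _
      rw [div_le_iff₀ hf] at h
      refine le_trans (le_of_eq ?_) h
      rw [Nat.cast_inj]
      refine congrArg Finset.card ?_
      ext π
      simp only [Finset.mem_filter]
      rfl
  · intro k A
    obtain ⟨C, hC⟩ := Pool.Agent.NH69.SD.count_main k A
    refine ⟨C, fun n hn m hm => ?_⟩
    refine le_trans (le_of_eq ?_) (hC n hn m hm)
    congr 2
    refine Finset.filter_congr fun F _ => ?_
    have e : ∀ i, IsSimple (F i) ↔ Pool.Agent.NH69.SD.Simple (F i) := by
      intro i
      unfold IsSimple Pool.Agent.NH69.SD.Simple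
      push Not
      rfl
    have e2 : (∀ i, IsSimple (F i)) ↔ ∀ i, Pool.Agent.NH69.SD.Simple (F i) :=
      forall_congr' e
    rw [e2]
    rfl

end Pool.Agent.Results.MP_739fc0_co.GenericDecidability
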